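import Mathlib
import Pool.Agent.Q100.LZ.Stm

/-! # Hölder's inequality in Lorentz spaces with the weight `|ξ|^(-α)` -/

set_option autoImplicit false

open MeasureTheory Set Filter Complex
open scoped ENNReal NNReal Topology

namespace Pool.Agent.Q65.LZ

open Q100.LZ

variable {d : ℕ}

lemma rearr_le {g : Eu d → ℂ} {s : ℝ} {l : ℝ≥0∞} (h : volume {x | l < ‖g x‖ₑ} ≤ ENNReal.ofReal s) :
    rearr g s ≤ l := sInf_le h

lemma rearr_anti (g : Eu d → ℂ) : Antitone (rearr g) := by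
  intro s t hst
  exact sInf_le_sInf fun l hl => le_trans hl (ENNReal.ofReal_le_ofReal hst)

lemma rearr_meas (g : Eu d → ℂ) : Measurable (rearr g) := (rearr_anti g).measurable

/-- Chebyshev -/
lemma cheb {g : Eu d → ℂ} (hg : Measurable g) {t : ℝ} (ht : 0 < t) :
    rearr g t ^ 2 * ENNReal.ofReal t ≤ ∫⁻ x, ‖g x‖ₑ ^ 2 := by
  set G := ∫⁻ x, ‖g x‖ₑ ^ 2 with hG
  have ht0 : ENNReal.ofReal t ≠ 0 := by simpa using ht
  have htt : ENNReal.ofReal t ≠ ⊤ := ENNReal.ofReal_ne_top
  have hm : Measurable fun x => ‖g x‖ₑ ^ 2 := hg.enorm.pow_const 2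
  rcases eq_or_ne G ⊤ with h1 | h1
  · rw [h1]; exact le_top
  rcases eq_or_ne G 0 with h2 | h2
  · have h3 : ∀ᵐ x, ‖g x‖ₑ ^ 2 = 0 := (lintegral_eq_zero_iff hm).1 h2
    have h4 : rearr g t ≤ 0 := by
      refine rearr_le ?_
      have : volume {x | 0 < ‖g x‖ₑ} = 0 := by
        refine measure_mono_null (fun x hx => ?_) h3
        simp only [mem_ofPred_eq] at hx ⊢
        intro h5
        have := pow_eq_zero_iff (two_ne_zero) |>.1 h5
        exact hx.ne' this
      rw [this]; exact zero_le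
    rw [le_antisymm h4 zero_le]
    simp
  · set l := (G / ENNReal.ofReal t) ^ (1 / 2 : ℝ) with hl
    have hl2 : l ^ 2 = G / ENNReal.ofReal t := by
      rw [hl, ← ENNReal.rpow_natCast, ← ENNReal.rpow_mul]
      norm_num
    have h5 : rearr g t ≤ l := by
      refine rearr_le ?_
      have h6 := mul_meas_ge_le_lintegral (μ := (volume : Measure (Eu d))) hm (l ^ 2)
      have h7 : volume {x | l < ‖g x‖ₑ} ≤ volume {x | l ^ 2 ≤ ‖g x‖ₑ ^ 2} :=
        measure_mono fun x hx => by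
          show l ^ 2 ≤ ‖g x‖ₑ ^ 2
          exact pow_le_pow_left' (le_of_lt hx) 2
      have h8 : l ^ 2 * volume {x | l < ‖g x‖ₑ} ≤ G := (mul_le_mul_right h7 _).trans h6
      rw [hl2] at h8
      have h9 : G * volume {x | l < ‖g x‖ₑ} ≤ G * ENNReal.ofReal t := by
        have := mul_le_mul_right h8 (ENNReal.ofReal t)
        calc G * volume {x | l < ‖g x‖ₑ} = ENNReal.ofReal t * (G / ENNReal.ofReal t * volume {x | l < ‖g x‖ₑ}) := by
              rw [← mul_assoc, ENNReal.mul_div_cancel ht0 htt]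
          _ ≤ ENNReal.ofReal t * G := this
          _ = _ := mul_comm _ _
      exact (ENNReal.mul_le_mul_iff_right h2 h1).1 h9
    calc rearr g t ^ 2 * ENNReal.ofReal t ≤ l ^ 2 * ENNReal.ofReal t := by gcongr
      _ = G := by rw [hl2, ENNReal.div_mul_cancel ht0 htt]

/-- the level sets of the rearrangement -/
lemma level (g : Eu d → ℂ) (l : ℝ) (hl : 0 < l) :
    volume.restrict (Ioi (0 : ℝ)) {s | l < (rearr g (s / 2)).toReal} ≤ 2 * volume {x | l < ‖g x‖} := by
  set m := volume {x | l < ‖g x‖} with hm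
  rcases eq_or_ne m ⊤ with h1 | h1
  · rw [h1]; simp
  have hsub : {s : ℝ | l < (rearr g (s / 2)).toReal} ∩ Ioi 0 ⊆ Ioo 0 (2 * m.toReal) := by
    rintro s ⟨hs, hs0⟩
    refine ⟨hs0, ?_⟩
    by_contra h2
    rw [not_lt] at h2
    have h3 : rearr g (s / 2) ≤ ENNReal.ofReal l := by
      refine rearr_le ?_
      have : {x | ENNReal.ofReal l < ‖g x‖ₑ} = {x | l < ‖g x‖} := by
        ext x
        simp only [mem_ofPred_eq]
        rw [← ofReal_norm, ENNReal.ofReal_lt_ofReal_iff_of_nonneg hl.le]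
      rw [this, ← hm, ← ENNReal.ofReal_toReal h1]
      exact ENNReal.ofReal_le_ofReal (by linarith)
    have h4 := ENNReal.toReal_mono ENNReal.ofReal_ne_top h3
    rw [ENNReal.toReal_ofReal hl.le] at h4
    exact absurd hs (not_lt.2 h4)
  rw [Measure.restrict_apply' measurableSet_Ioi]
  refine (measure_mono hsub).trans ?_
  rw [Real.volume_Ioo, sub_zero, ENNReal.ofReal_mul (by norm_num), ENNReal.ofReal_toReal h1]
  simp

lemma l2 {g : Eu d → ℂ} (hg : Measurable g) (hG : ∫⁻ x, ‖g x‖ₑ ^ 2 ≠ ⊤) :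
    ∫⁻ s in Ioi (0 : ℝ), rearr g (s / 2) ^ 2 ≤ 2 * ∫⁻ x, ‖g x‖ₑ ^ 2 := by
  have hfin : ∀ s ∈ Ioi (0 : ℝ), rearr g (s / 2) ≠ ⊤ := by
    intro s hs h
    have hs2 : 0 < s / 2 := by
      have : (0 : ℝ) < s := hs
      linarith
    have := cheb hg hs2
    rw [h] at this
    have h2 : (⊤ : ℝ≥0∞) ^ 2 * ENNReal.ofReal (s / 2) = ⊤ := by
      rw [ENNReal.top_pow two_ne_zero, ENNReal.top_mul]
      simpa using hs2
    rw [h2, top_le_iff] at this
    exact hG this
  have e1 : ∫⁻ s in Ioi (0 : ℝ), rearr g (s / 2) ^ 2 =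
      ∫⁻ s in Ioi (0 : ℝ), ENNReal.ofReal ((rearr g (s / 2)).toReal ^ (2 : ℝ)) := by
    refine setLIntegral_congr_fun measurableSet_Ioi fun s hs => ?_
    rw [← ENNReal.ofReal_rpow_of_nonneg ENNReal.toReal_nonneg (by norm_num), ENNReal.ofReal_toReal (hfin s hs)]
    norm_num
  have e2 : ∫⁻ x, ‖g x‖ₑ ^ 2 = ∫⁻ x, ENNReal.ofReal (‖g x‖ ^ (2 : ℝ)) := by
    refine lintegral_congr fun x => ?_
    rw [← ENNReal.ofReal_rpow_of_nonneg (norm_nonneg _) (by norm_num), ofReal_norm]
    norm_num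
  have hmeas : AEMeasurable (fun s : ℝ => (rearr g (s / 2)).toReal) (volume.restrict (Ioi (0 : ℝ))) :=
    (((rearr_meas g).comp (measurable_id.div_const 2)).ennreal_toReal).aemeasurable
  have hnn : 0 ≤ᵐ[volume.restrict (Ioi (0 : ℝ))] (fun s : ℝ => (rearr g (s / 2)).toReal) :=
    Eventually.of_forall fun _ => ENNReal.toReal_nonneg
  rw [e1, e2, lintegral_rpow_eq_lintegral_meas_lt_mul (volume.restrict (Ioi (0 : ℝ))) hnn hmeas (by norm_num),
    lintegral_rpow_eq_lintegral_meas_lt_mul (volume : Measure (Eu d))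
    (Eventually.of_forall fun _ => norm_nonneg _) hg.norm.aemeasurable (by norm_num),
    mul_left_comm, ← lintegral_const_mul' 2 _ (by simp)]
  refine mul_le_mul_right (α := ℝ≥0∞) ?_ _
  refine setLIntegral_mono' measurableSet_Ioi fun l hl => ?_
  rw [← mul_assoc]
  exact mul_le_mul_left (level g l hl) _

/-- the weight -/
noncomputable def wt (α : ℝ) (ξ : Eu d) : ℂ := (((2 * Real.pi * ‖ξ‖) ^ (-α) : ℝ) : ℂ)

lemma step1 (hd : 1 ≤ d) {α : ℝ} (hα : 0 < α) : ∃ K : ℝ, 0 < K ∧ ∀ (g : Eu d → ℂ) (s : ℝ), 0 < s →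
    rearr (fun ξ => wt α ξ * g ξ) s ≤ ENNReal.ofReal (K * s ^ (-(α / d))) * rearr g (s / 2) := by
  have : Nonempty (Fin d) := ⟨⟨0, hd⟩⟩
  have hd0 : (0 : ℝ) < d := by exact_mod_cast hd
  set V : ℝ := (volume (Metric.ball (0 : Eu d) 1)).toReal with hV
  have hVt : volume (Metric.ball (0 : Eu d) 1) ≠ ⊤ := measure_ball_lt_top.ne
  have hV0 : 0 < V := ENNReal.toReal_pos (Metric.measure_ball_pos _ _ one_pos).ne' hVt
  have hpi := Real.pi_pos
  refine ⟨(2 * Real.pi) ^ (-α) * (2 * V) ^ (α / d), by positivity, fun g s hs => ?_⟩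
  set ρ : ℝ := (s / 2 / V) ^ (1 / (d : ℝ)) with hρ
  have hρ0 : 0 < ρ := by positivity
  set a : ℝ := (2 * Real.pi * ρ) ^ (-α) with ha
  have ha0 : 0 < a := by positivity
  have ea : a = (2 * Real.pi) ^ (-α) * (2 * V) ^ (α / d) * s ^ (-(α / d)) := by
    rw [ha, hρ, Real.mul_rpow (by positivity) (by positivity), ← Real.rpow_mul (by positivity)]
    have e1 : 1 / (d : ℝ) * -α = -(α / d) := by ring
    have e2 : s / 2 / V = s * (2 * V)⁻¹ := by field_simp
    rw [e1, e2, Real.mul_rpow hs.le (by positivity), Real.inv_rpow (by positivity), ← Real.rpow_neg (by positivity),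
      neg_neg]
    ring
  rw [← ea]
  -- the measure of the level set of the weight
  have hw : volume {ξ : Eu d | a < ‖wt α ξ‖} ≤ ENNReal.ofReal (s / 2) := by
    have hsub : {ξ : Eu d | a < ‖wt α ξ‖} ⊆ Metric.ball 0 ρ := by
      intro ξ hξ
      rw [mem_ofPred_eq] at hξ
      rw [mem_ball_zero_iff]
      by_contra h
      rw [not_lt] at h
      unfold wt at hξ
      rw [Complex.norm_real, Real.norm_of_nonneg (by positivity)] at hξ
      have : (2 * Real.pi * ‖ξ‖) ^ (-α) ≤ a := by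
        rw [ha]
        exact Real.rpow_le_rpow_of_nonpos (by positivity) (by gcongr) (by linarith)
      linarith
    refine (measure_mono hsub).trans (le_of_eq ?_)
    rw [Measure.addHaar_ball volume _ hρ0.le, ← ENNReal.ofReal_toReal hVt, ← hV, ← ENNReal.ofReal_mul (by positivity)]
    congr 1
    rw [finrank_euclideanSpace_fin, hρ, ← Real.rpow_natCast, ← Real.rpow_mul (by positivity)]
    have : 1 / (d : ℝ) * d = 1 := by field_simp
    rw [this, Real.rpow_one]
    field_simp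
  -- the product
  have ha1 : ENNReal.ofReal a ≠ 0 := by simpa using ha0
  have ha2 : ENNReal.ofReal a ≠ ⊤ := ENNReal.ofReal_ne_top
  have key : rearr (fun ξ => wt α ξ * g ξ) s / ENNReal.ofReal a ≤ rearr g (s / 2) := by
    refine le_sInf fun b hb => ?_
    rw [ENNReal.div_le_iff ha1 ha2]
    refine rearr_le ?_
    have hsub : {x | b * ENNReal.ofReal a < ‖wt α x * g x‖ₑ} ⊆ {ξ : Eu d | a < ‖wt α ξ‖} ∪ {x | b < ‖g x‖ₑ} := by
      intro x hx
      rw [mem_ofPred_eq] at hx
      by_contra h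
      rw [mem_union, not_or, mem_ofPred_eq, mem_ofPred_eq, not_lt, not_lt] at h
      have h1 : ‖wt α x‖ₑ ≤ ENNReal.ofReal a := by
        rw [← ofReal_norm]
        exact ENNReal.ofReal_le_ofReal h.1
      have h2 : ‖wt α x * g x‖ₑ ≤ b * ENNReal.ofReal a := by
        rw [enorm_mul, mul_comm]
        exact mul_le_mul' h.2 h1
      exact absurd hx (not_lt.2 h2)
    refine (measure_mono hsub).trans ((measure_union_le _ _).trans ?_)
    have e3 : ENNReal.ofReal s = ENNReal.ofReal (s / 2) + ENNReal.ofReal (s / 2) := by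
      rw [← ENNReal.ofReal_add (by positivity) (by positivity)]
      congr 1
      ring
    rw [e3]
    exact add_le_add hw hb
  rw [ENNReal.div_le_iff ha1 ha2] at key
  rwa [mul_comm] at key

theorem lho : S_lho := by
  intro d α q hd hα hαd hq
  have hd0 : (0 : ℝ) < d := by exact_mod_cast hd
  obtain ⟨K, hK, hstep⟩ := step1 hd hα
  set D : ℝ := K * Real.sqrt 2 with hD
  have hD0 : 0 < D := by positivity
  refine ⟨D.toNNReal, fun g hg => ?_⟩
  set G := ∫⁻ x, ‖g x‖ₑ ^ 2 with hG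
  have hDc : ((D.toNNReal : ℝ≥0) : ℝ≥0∞) = ENNReal.ofReal D := rfl
  rw [hDc]
  rcases eq_or_ne G ⊤ with h1 | h1
  · rw [h1, ENNReal.top_rpow_of_pos (by norm_num), ENNReal.mul_top (by simpa using hD0)]
    exact le_top
  have hq0 : 0 < q := by linarith
  unfold lorentz
  have hp : 1 / (2 * (d : ℝ) / (2 * α + d)) = α / d + 1 / 2 := by field_simp
  rw [hp]
  -- pointwise
  set Y : ℝ → ℝ≥0∞ := fun s => ENNReal.ofReal (K * s ^ (1 / 2 : ℝ)) * rearr g (s / 2) with hY
  have hX : ∀ s ∈ Ioi (0 : ℝ), ENNReal.ofReal (s ^ (α / d + 1 / 2)) *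
      rearr (fun ξ => (((2 * Real.pi * ‖ξ‖) ^ (-α) : ℝ) : ℂ) * g ξ) s ≤ Y s := by
    intro s hs
    have hs0 : (0 : ℝ) < s := hs
    refine (mul_le_mul_right (hstep g s hs0) _).trans (le_of_eq ?_)
    rw [← mul_assoc, ← ENNReal.ofReal_mul (by positivity), hY]
    simp only
    congr 2
    have : s ^ (α / (d : ℝ) + 1 / 2) * (K * s ^ (-(α / (d : ℝ)))) = K * (s ^ (α / (d : ℝ) + 1 / 2) * s ^ (-(α / (d : ℝ)))) := by
      ring
    rw [this, ← Real.rpow_add hs0]
    congr 2
    ring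
  have hsq : ∀ s ∈ Ioi (0 : ℝ), Y s ^ 2 = ENNReal.ofReal (K ^ 2 * s) * rearr g (s / 2) ^ 2 := by
    intro s hs
    have hs0 : (0 : ℝ) < s := hs
    rw [hY]
    simp only
    rw [mul_pow, ← ENNReal.ofReal_pow (by positivity), mul_pow, ← Real.rpow_natCast (s ^ (1 / 2 : ℝ)), ← Real.rpow_mul hs0.le]
    norm_num
  set B : ℝ≥0∞ := ENNReal.ofReal D * G ^ (1 / 2 : ℝ) with hB
  have hB2 : B ^ 2 = ENNReal.ofReal (D ^ 2) * G := by
    rw [hB, mul_pow, ← ENNReal.ofReal_pow hD0.le]
    congr 1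
    rw [← ENNReal.rpow_natCast, ← ENNReal.rpow_mul]
    norm_num
  have hDsq : D ^ 2 = K ^ 2 * 2 := by
    rw [hD, mul_pow, Real.sq_sqrt (by norm_num)]
  have hYB : ∀ s ∈ Ioi (0 : ℝ), Y s ≤ B := by
    intro s hs
    have hs0 : (0 : ℝ) < s := hs
    have h2 : Y s ^ 2 ≤ B ^ 2 := by
      rw [hsq s hs, hB2, hDsq]
      have h3 := cheb hg (show 0 < s / 2 by linarith)
      have e : ENNReal.ofReal (K ^ 2 * s) = ENNReal.ofReal (K ^ 2 * 2) * ENNReal.ofReal (s / 2) := by
        rw [← ENNReal.ofReal_mul (by positivity)]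
        congr 1
        ring
      rw [e, mul_assoc, mul_comm (ENNReal.ofReal (s / 2))]
      exact mul_le_mul_right h3 _
    by_contra h9
    rw [not_le] at h9
    exact absurd h2 (not_le.2 (ENNReal.pow_lt_pow_left two_ne_zero h9))
  -- the integral
  have hint : ∫⁻ s in Ioi (0 : ℝ), (ENNReal.ofReal (s ^ (α / d + 1 / 2)) *
      rearr (fun ξ => (((2 * Real.pi * ‖ξ‖) ^ (-α) : ℝ) : ℂ) * g ξ) s) ^ q * ENNReal.ofReal s⁻¹ ≤ B ^ q := by
    calc ∫⁻ s in Ioi (0 : ℝ), (ENNReal.ofReal (s ^ (α / d + 1 / 2)) *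
          rearr (fun ξ => (((2 * Real.pi * ‖ξ‖) ^ (-α) : ℝ) : ℂ) * g ξ) s) ^ q * ENNReal.ofReal s⁻¹
        ≤ ∫⁻ s in Ioi (0 : ℝ), B ^ (q - 2) * (ENNReal.ofReal (K ^ 2) * rearr g (s / 2) ^ 2) := by
          refine setLIntegral_mono' measurableSet_Ioi fun s hs => ?_
          have hs0 : (0 : ℝ) < s := hs
          calc (ENNReal.ofReal (s ^ (α / d + 1 / 2)) *
                rearr (fun ξ => (((2 * Real.pi * ‖ξ‖) ^ (-α) : ℝ) : ℂ) * g ξ) s) ^ q * ENNReal.ofReal s⁻¹
              ≤ Y s ^ q * ENNReal.ofReal s⁻¹ := by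
                gcongr
                exact hX s hs
            _ = (Y s ^ (q - 2) * Y s ^ 2) * ENNReal.ofReal s⁻¹ := by
                congr 1
                rw [← ENNReal.rpow_natCast, ← ENNReal.rpow_add_of_nonneg _ _ (by linarith) (by norm_num)]
                congr 1
                push_cast
                ring
            _ ≤ (B ^ (q - 2) * Y s ^ 2) * ENNReal.ofReal s⁻¹ := by
                have h10 := ENNReal.rpow_le_rpow (z := q - 2) (hYB s hs) (by linarith)
                gcongr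
            _ = B ^ (q - 2) * (ENNReal.ofReal (K ^ 2) * rearr g (s / 2) ^ 2) := by
                rw [hsq s hs, mul_assoc]
                congr 1
                rw [mul_right_comm, ← ENNReal.ofReal_mul (by positivity)]
                congr 2
                field_simp
      _ = B ^ (q - 2) * (ENNReal.ofReal (K ^ 2) * ∫⁻ s in Ioi (0 : ℝ), rearr g (s / 2) ^ 2) := by
          have hm : Measurable fun s : ℝ => rearr g (s / 2) ^ 2 :=
            ((rearr_meas g).comp (measurable_id.div_const 2)).pow_const 2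
          rw [lintegral_const_mul _ (hm.const_mul _), lintegral_const_mul _ hm]
      _ ≤ B ^ (q - 2) * (ENNReal.ofReal (K ^ 2) * (2 * G)) := by
          gcongr
          exact l2 hg h1
      _ = B ^ (q - 2) * B ^ 2 := by
          rw [hB2, hDsq, ENNReal.ofReal_mul (by positivity), mul_assoc]
          simp
      _ = B ^ q := by
          rw [← ENNReal.rpow_natCast, ← ENNReal.rpow_add_of_nonneg _ _ (by linarith) (by norm_num)]
          congr 1
          push_cast
          ring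
  calc _ ≤ (B ^ q) ^ (1 / q) := ENNReal.rpow_le_rpow hint (by positivity)
    _ = B := by
        rw [← ENNReal.rpow_mul]
        have : q * (1 / q) = 1 := by field_simp
        rw [this, ENNReal.rpow_one]

end Pool.Agent.Q65.LZ
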