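import Mathlib
import Pool.Agent.Q100.LZ.Stm

/-! # Paley–Zygmund for random signs -/

set_option autoImplicit false
set_option linter.unusedSectionVars false

open MeasureTheory Set Filter Complex
open scoped ENNReal NNReal Topology ComplexConjugate

namespace Pool.Agent.Q65.LZ

open Q100.LZ

variable {ι : Type} [Fintype ι] [DecidableEq ι]

/-- flipping one bit -/
def flip (i : ι) (ε : ι → Bool) : ι → Bool := Function.update ε i (!ε i)

lemma flip_flip (i : ι) (ε : ι → Bool) : flip i (flip i ε) = ε := by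
  unfold flip
  simp

/-- partial sums -/
noncomputable def FS (a : ℂ) (z : ι → ℂ) (s : Finset ι) (ε : ι → Bool) : ℂ := a + ∑ i ∈ s, sg (ε i) * z i

lemma FS_flip (a : ℂ) (z : ι → ℂ) (s : Finset ι) (ε : ι → Bool) {i : ι} (hi : i ∉ s) :
    FS a z s (flip i ε) = FS a z s ε := by
  unfold FS
  congr 1
  refine Finset.sum_congr rfl fun j hj => ?_
  have : j ≠ i := fun h => hi (h ▸ hj)
  simp [flip, Function.update_of_ne this]

lemma sg_flip (ε : ι → Bool) (i : ι) : sg (flip i ε i) = -sg (ε i) := by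
  unfold flip sg
  cases ε i <;> simp

lemma sg_norm (b : Bool) : ‖sg b‖ = 1 := by
  unfold sg; cases b <;> simp

lemma sum_flip (i : ι) (h : (ι → Bool) → ℝ) : ∑ ε, h (flip i ε) = ∑ ε, h ε :=
  Equiv.sum_comp ⟨flip i, flip i, flip_flip i, flip_flip i⟩ h

lemma two_pt (x y : ℂ) : ‖x + y‖ ^ 2 + ‖x - y‖ ^ 2 = 2 * (‖x‖ ^ 2 + ‖y‖ ^ 2) := by
  simp only [← Complex.normSq_eq_norm_sq, Complex.normSq_apply, Complex.add_re, Complex.add_im,
    Complex.sub_re, Complex.sub_im]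
  ring

lemma four_pt (x y : ℂ) : ‖x + y‖ ^ 4 + ‖x - y‖ ^ 4 ≤ 2 * (‖x‖ ^ 4 + 6 * (‖x‖ ^ 2 * ‖y‖ ^ 2) + ‖y‖ ^ 4) := by
  have h : ∀ w : ℂ, ‖w‖ ^ 4 = (w.re * w.re + w.im * w.im) ^ 2 := by
    intro w
    rw [← Complex.normSq_apply, Complex.normSq_eq_norm_sq]
    ring
  have h2 : ∀ w : ℂ, ‖w‖ ^ 2 = (w.re * w.re + w.im * w.im) := by
    intro w
    rw [← Complex.normSq_apply, Complex.normSq_eq_norm_sq]
  rw [h, h, h, h, h2, h2]
  simp only [Complex.add_re, Complex.add_im, Complex.sub_re, Complex.sub_im]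
  nlinarith [sq_nonneg (x.re * y.im - x.im * y.re)]

lemma moments (a : ℂ) (z : ι → ℂ) (s : Finset ι) :
    (∑ ε, ‖FS a z s ε‖ ^ 2 = (Fintype.card (ι → Bool) : ℝ) * (‖a‖ ^ 2 + ∑ i ∈ s, ‖z i‖ ^ 2)) ∧
    (∑ ε, ‖FS a z s ε‖ ^ 4 ≤ 3 * (Fintype.card (ι → Bool) : ℝ) * (‖a‖ ^ 2 + ∑ i ∈ s, ‖z i‖ ^ 2) ^ 2) := by
  induction s using Finset.induction_on with
  | empty =>
      simp only [FS, Finset.sum_empty, add_zero, Finset.sum_const, Finset.card_univ, nsmul_eq_mul]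
      refine ⟨trivial, ?_⟩
      have : 0 ≤ (Fintype.card (ι → Bool) : ℝ) * ‖a‖ ^ 4 := by positivity
      nlinarith
  | insert i s hi ih =>
      obtain ⟨h1, h2⟩ := ih
      set M : ℝ := (Fintype.card (ι → Bool) : ℝ) with hM
      set T : ℝ := ‖a‖ ^ 2 + ∑ i ∈ s, ‖z i‖ ^ 2 with hT
      have hT0 : 0 ≤ T := by positivity
      have hM0 : 0 ≤ M := by positivity
      have e : ∀ ε, FS a z (insert i s) ε = FS a z s ε + sg (ε i) * z i := by
        intro ε
        unfold FS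
        rw [Finset.sum_insert hi]
        ring
      have e' : ∀ ε, FS a z (insert i s) (flip i ε) = FS a z s ε - sg (ε i) * z i := by
        intro ε
        rw [e, FS_flip a z s ε hi, sg_flip]
        ring
      have hn : ∀ ε : ι → Bool, ‖sg (ε i) * z i‖ = ‖z i‖ := by
        intro ε; rw [norm_mul, sg_norm, one_mul]
      have hS : T + ‖z i‖ ^ 2 = ‖a‖ ^ 2 + ∑ j ∈ insert i s, ‖z j‖ ^ 2 := by
        rw [Finset.sum_insert hi, hT]; ring
      rw [← hS]
      have hc : ∑ _ε : ι → Bool, (1 : ℝ) = M := by simp [hM]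
      constructor
      · have h3 : 2 * ∑ ε, ‖FS a z (insert i s) ε‖ ^ 2 = 2 * ∑ ε, (‖FS a z s ε‖ ^ 2 + ‖z i‖ ^ 2) := by
          have : 2 * ∑ ε, ‖FS a z (insert i s) ε‖ ^ 2 =
              ∑ ε, ‖FS a z (insert i s) ε‖ ^ 2 + ∑ ε, ‖FS a z (insert i s) (flip i ε)‖ ^ 2 := by
            rw [sum_flip i fun ε => ‖FS a z (insert i s) ε‖ ^ 2]; ring
          rw [this, ← Finset.sum_add_distrib, Finset.mul_sum]
          refine Finset.sum_congr rfl fun ε _ => ?_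
          rw [e, e', two_pt, hn]
        have h4 : ∑ ε, (‖FS a z s ε‖ ^ 2 + ‖z i‖ ^ 2) = M * T + M * ‖z i‖ ^ 2 := by
          rw [Finset.sum_add_distrib, h1, Finset.sum_const, Finset.card_univ, nsmul_eq_mul]
        linarith
      · have h3 : 2 * ∑ ε, ‖FS a z (insert i s) ε‖ ^ 4 ≤
            2 * ∑ ε, (‖FS a z s ε‖ ^ 4 + 6 * (‖FS a z s ε‖ ^ 2 * ‖z i‖ ^ 2) + ‖z i‖ ^ 4) := by
          have : 2 * ∑ ε, ‖FS a z (insert i s) ε‖ ^ 4 =
              ∑ ε, ‖FS a z (insert i s) ε‖ ^ 4 + ∑ ε, ‖FS a z (insert i s) (flip i ε)‖ ^ 4 := by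
            rw [sum_flip i fun ε => ‖FS a z (insert i s) ε‖ ^ 4]; ring
          rw [this, ← Finset.sum_add_distrib, Finset.mul_sum]
          refine Finset.sum_le_sum fun ε _ => ?_
          have := four_pt (FS a z s ε) (sg (ε i) * z i)
          rw [hn] at this
          rw [e, e']
          exact this
        have h4 : ∑ ε, (‖FS a z s ε‖ ^ 4 + 6 * (‖FS a z s ε‖ ^ 2 * ‖z i‖ ^ 2) + ‖z i‖ ^ 4) =
            ∑ ε, ‖FS a z s ε‖ ^ 4 + 6 * ((M * T) * ‖z i‖ ^ 2) + M * ‖z i‖ ^ 4 := by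
          rw [Finset.sum_add_distrib, Finset.sum_add_distrib, ← Finset.mul_sum, ← Finset.sum_mul, h1,
            Finset.sum_const, Finset.card_univ, nsmul_eq_mul]
        have h5 : 0 ≤ M * ‖z i‖ ^ 4 := by positivity
        have h6 : 3 * M * (T + ‖z i‖ ^ 2) ^ 2 = 3 * M * T ^ 2 + 6 * ((M * T) * ‖z i‖ ^ 2) + 3 * (M * ‖z i‖ ^ 4) := by
          ring
        rw [h6]
        linarith

theorem pz : S_PZ := by
  classical
  refine ⟨1 / 12, by norm_num, by norm_num, fun ι _ a z => ?_⟩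
  obtain ⟨h1, h2⟩ := moments a z Finset.univ
  set M : ℝ := (Fintype.card (ι → Bool) : ℝ) with hM
  set σ : ℝ := ∑ i, ‖z i‖ ^ 2 with hσ
  set T : ℝ := ‖a‖ ^ 2 + σ with hT
  have hσ0 : 0 ≤ σ := by positivity
  have hT0 : σ ≤ T := by rw [hT]; linarith [sq_nonneg ‖a‖]
  have hM0 : 0 < M := by rw [hM]; exact_mod_cast Fintype.card_pos
  set P : Finset (ι → Bool) := Finset.univ.filter fun ε => σ / 2 ≤ ‖a + ∑ i, sg (ε i) * z i‖ ^ 2 with hP
  have hcard : (Nat.card {ε : ι → Bool // σ / 2 ≤ ‖a + ∑ i, sg (ε i) * z i‖ ^ 2} : ℝ) = P.card := by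
    rw [Nat.card_eq_fintype_card, Fintype.card_subtype]
  rw [hcard, Nat.card_eq_fintype_card, ← hM]
  have hF : ∀ ε, FS a z Finset.univ ε = a + ∑ i, sg (ε i) * z i := fun _ => rfl
  rcases hT0.trans' hσ0 |>.eq_or_lt with h0 | h0
  · -- all signs are good
    have : P = Finset.univ := by
      rw [hP, Finset.filter_true_of_mem]
      intro ε _
      have : σ = 0 := le_antisymm (by linarith) hσ0
      have h9 := sq_nonneg ‖a + ∑ i, sg (ε i) * z i‖
      linarith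
    rw [this, Finset.card_univ, ← hM]
    linarith
  · have hsplit : M * T ≤ M * (T / 2) + ∑ ε ∈ P, ‖FS a z Finset.univ ε‖ ^ 2 := by
      rw [← h1, ← Finset.sum_filter_add_sum_filter_not Finset.univ
        (fun ε => σ / 2 ≤ ‖a + ∑ i, sg (ε i) * z i‖ ^ 2), add_comm]
      refine add_le_add ?_ le_rfl
      calc ∑ ε ∈ Finset.univ.filter (fun ε => ¬σ / 2 ≤ ‖a + ∑ i, sg (ε i) * z i‖ ^ 2), ‖FS a z Finset.univ ε‖ ^ 2
          ≤ ∑ ε ∈ Finset.univ.filter (fun ε => ¬σ / 2 ≤ ‖a + ∑ i, sg (ε i) * z i‖ ^ 2), T / 2 := by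
            refine Finset.sum_le_sum fun ε hε => ?_
            rw [Finset.mem_filter] at hε
            rw [hF]
            linarith [not_le.1 hε.2]
        _ ≤ ∑ _ε : ι → Bool, T / 2 :=
            Finset.sum_le_sum_of_subset_of_nonneg (Finset.filter_subset _ _) fun _ _ _ => by linarith
        _ = M * (T / 2) := by rw [Finset.sum_const, Finset.card_univ, nsmul_eq_mul]
    have hCS : (∑ ε ∈ P, ‖FS a z Finset.univ ε‖ ^ 2) ^ 2 ≤ P.card * (3 * M * T ^ 2) := by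
      have h3 := Finset.sum_mul_sq_le_sq_mul_sq P (fun _ => (1 : ℝ)) fun ε => ‖FS a z Finset.univ ε‖ ^ 2
      simp only [one_mul, one_pow, Finset.sum_const, nsmul_eq_mul, mul_one] at h3
      refine h3.trans (mul_le_mul_of_nonneg_left ?_ (by positivity))
      refine le_trans ?_ h2
      calc ∑ ε ∈ P, (‖FS a z Finset.univ ε‖ ^ 2) ^ 2 = ∑ ε ∈ P, ‖FS a z Finset.univ ε‖ ^ 4 := by
            refine Finset.sum_congr rfl fun ε _ => by ring
        _ ≤ _ := Finset.sum_le_sum_of_subset_of_nonneg (Finset.filter_subset _ _) fun _ _ _ => by positivity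
    have h4 : M * (T / 2) ≤ ∑ ε ∈ P, ‖FS a z Finset.univ ε‖ ^ 2 := by linarith
    have h5 : (M * (T / 2)) ^ 2 ≤ P.card * (3 * M * T ^ 2) :=
      (pow_le_pow_left₀ (by positivity) h4 2).trans hCS
    have h6 : 0 < M * T ^ 2 := by positivity
    have h7 : (M * T ^ 2) * M ≤ (M * T ^ 2) * (12 * P.card) := by nlinarith
    have h8 := le_of_mul_le_mul_left h7 h6
    linarith

end Pool.Agent.Q65.LZ
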