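import Mathlib
import Pool.Agent.Q100.LZ.Stm

/-! # Square integrability of the Fourier transform at the end point -/

set_option autoImplicit false

open MeasureTheory Set Filter Complex
open scoped ENNReal NNReal Topology ComplexConjugate

namespace Pool.Agent.Q65.LZ

open Q100.LZ

variable {d : ℕ}

/-- the character -/
noncomputable def ch (x ξ : Eu d) : ℂ := cexp (-(2 * Real.pi * I) * (inner ℝ x ξ : ℝ))

/-- the Gaussian -/
noncomputable def gs (s : ℝ) (ξ : Eu d) : ℝ := Real.exp (-(4 * Real.pi ^ 2 * s) * ‖ξ‖ ^ 2)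

lemma ch_norm (x ξ : Eu d) : ‖ch x ξ‖ = 1 := by
  unfold ch
  rw [Complex.norm_exp]
  simp

lemma ch_conj (x ξ : Eu d) : conj (ch x ξ) = cexp ((2 * Real.pi * I) * (inner ℝ x ξ : ℝ)) := by
  unfold ch
  rw [← Complex.exp_conj]
  congr 1
  have h2 : (starRingEnd ℂ) (2 : ℂ) = 2 := map_ofNat (starRingEnd ℂ) 2
  simp [h2]

lemma ch_sub (x y ξ : Eu d) : ch x ξ * conj (ch y ξ) = ch (x - y) ξ := by
  rw [ch_conj]
  unfold ch
  rw [← Complex.exp_add, inner_sub_left]
  congr 1
  push_cast
  ring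

lemma ch_cont : Continuous fun z : Eu d × Eu d => ch z.1 z.2 := by
  unfold ch
  fun_prop

lemma gs_pos (s : ℝ) (ξ : Eu d) : 0 < gs s ξ := Real.exp_pos _

lemma gs_cont (s : ℝ) : Continuous (gs s : Eu d → ℝ) := by
  unfold gs
  fun_prop

lemma gs_int {s : ℝ} (hs : 0 < s) : Integrable (gs s : Eu d → ℝ) := by
  have hb : 0 < 4 * Real.pi ^ 2 * s := by positivity
  have h := GaussianFourier.integrable_cexp_neg_mul_sq_norm_add_of_euclideanSpace
    (b := ((4 * Real.pi ^ 2 * s : ℝ) : ℂ)) (by rw [Complex.ofReal_re]; exact hb) (0 : ℂ) (0 : EuclideanSpace ℝ (Fin d))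
  have h2 := h.norm
  refine h2.congr (Eventually.of_forall fun ξ => ?_)
  unfold gs
  simp only [zero_mul, add_zero]
  rw [Complex.norm_exp]
  congr 1
  have : (-((4 * Real.pi ^ 2 * s : ℝ) : ℂ) * (‖ξ‖ : ℂ) ^ 2) = ((-(4 * Real.pi ^ 2 * s) * ‖ξ‖ ^ 2 : ℝ) : ℂ) := by
    push_cast; ring
  rw [this, Complex.ofReal_re]

lemma gauss {s : ℝ} (hs : 0 < s) (w : Eu d) :
    ∫ ξ : Eu d, ch w ξ * (gs s ξ : ℂ) = (heat d s w : ℂ) := by
  have hb : 0 < (((4 * Real.pi ^ 2 * s : ℝ) : ℂ)).re := by
    rw [Complex.ofReal_re]; positivity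
  have h := GaussianFourier.integral_cexp_neg_mul_sq_norm_add_of_euclideanSpace hb (-(2 * Real.pi * I)) w
  have e1 : (fun ξ : Eu d => ch w ξ * (gs s ξ : ℂ)) = fun ξ =>
      cexp (-((4 * Real.pi ^ 2 * s : ℝ) : ℂ) * (‖ξ‖ : ℂ) ^ 2 + -(2 * Real.pi * I) * (inner ℝ w ξ : ℝ)) := by
    funext ξ
    unfold ch gs
    rw [Complex.ofReal_exp, ← Complex.exp_add]
    congr 1
    push_cast
    ring
  rw [e1, h]
  unfold heat
  have hpi := Real.pi_pos
  rw [Complex.ofReal_mul ((4 * Real.pi * s) ^ (-(d : ℝ) / 2)) _]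
  congr 1
  · have e2 : ((Real.pi : ℂ) / ((4 * Real.pi ^ 2 * s : ℝ) : ℂ)) = (((4 * Real.pi * s)⁻¹ : ℝ) : ℂ) := by
      push_cast
      have : (Real.pi : ℂ) ≠ 0 := by exact_mod_cast hpi.ne'
      have : (s : ℂ) ≠ 0 := by exact_mod_cast hs.ne'
      field_simp
    have e3 : ((Fintype.card (Fin d) : ℂ) / 2) = (((d : ℝ) / 2 : ℝ) : ℂ) := by
      rw [Fintype.card_fin]; push_cast; rfl
    rw [e2, e3, ← Complex.ofReal_cpow (by positivity)]
    congr 1
    rw [Real.inv_rpow (by positivity), ← Real.rpow_neg (by positivity)]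
    congr 1
    ring
  · rw [Complex.ofReal_exp]
    congr 1
    push_cast
    have : (Real.pi : ℂ) ≠ 0 := by exact_mod_cast hpi.ne'
    have : (s : ℂ) ≠ 0 := by exact_mod_cast hs.ne'
    have hI : (-(2 * Real.pi * I)) ^ 2 = -(4 * (Real.pi : ℂ) ^ 2) := by
      have := Complex.I_sq
      linear_combination (4 * (Real.pi : ℂ) ^ 2) * this
    rw [hI]
    field_simp

lemma sint_mul (μ : SignedMeasure (Eu d)) (f : Eu d → ℂ) (c : ℂ) : sint μ (fun x => f x * c) = sint μ f * c := by
  unfold sint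
  rw [integral_mul_const, integral_mul_const, sub_mul]

lemma sint_conj (μ : SignedMeasure (Eu d)) (f : Eu d → ℂ) : conj (sint μ f) = sint μ (fun x => conj (f x)) := by
  unfold sint
  rw [map_sub, integral_conj, integral_conj]

lemma sint_enorm (μ : SignedMeasure (Eu d)) (f : Eu d → ℂ) (B : ℝ≥0∞) (h : ∀ x, ‖f x‖ₑ ≤ B) :
    ‖sint μ f‖ₑ ≤ B * mass μ := by
  unfold sint mass SignedMeasure.totalVariation
  have h1 : ∀ ν : Measure (Eu d), ‖∫ x, f x ∂ν‖ₑ ≤ B * ν univ := by
    intro ν
    refine (enorm_integral_le_lintegral_enorm _).trans ?_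
    calc ∫⁻ x, ‖f x‖ₑ ∂ν ≤ ∫⁻ _x, B ∂ν := lintegral_mono h
      _ = B * ν univ := by rw [lintegral_const]
  rw [Measure.add_apply, mul_add]
  refine le_trans ?_ (add_le_add (h1 _) (h1 _))
  exact enorm_sub_le

lemma fubini (μ : SignedMeasure (Eu d)) (F : Eu d → Eu d → ℂ) (hF : Measurable (Function.uncurry F))
    (H : Eu d → ℝ) (hH : Integrable H) (hb : ∀ x ξ, ‖F x ξ‖ ≤ H ξ) :
    ∫ ξ, sint μ (fun x => F x ξ) = sint μ (fun x => ∫ ξ, F x ξ) := by
  have key : ∀ ν : Measure (Eu d), IsFiniteMeasure ν →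
      Integrable (Function.uncurry fun ξ x => F x ξ) (volume.prod ν) := by
    intro ν hν
    have h1 : Integrable (fun z : Eu d × Eu d => H z.1 * (1 : ℝ)) (volume.prod ν) :=
      hH.mul_prod (integrable_const (1 : ℝ))
    refine h1.mono' ?_ (Eventually.of_forall fun z => ?_)
    · exact (hF.comp measurable_swap).aestronglyMeasurable
    · simp only [mul_one]
      exact hb z.2 z.1
  have hP := key _ μ.toJordanDecomposition.posPart_finite
  have hN := key _ μ.toJordanDecomposition.negPart_finite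
  have := μ.toJordanDecomposition.posPart_finite
  have := μ.toJordanDecomposition.negPart_finite
  unfold sint
  refine (integral_sub hP.integral_prod_left hN.integral_prod_left).trans ?_
  exact congrArg₂ (· - ·) (integral_integral_swap hP) (integral_integral_swap hN)

lemma four_eq (μ : SignedMeasure (Eu d)) (ξ : Eu d) : four μ ξ = sint μ fun x => ch x ξ := rfl

lemma four_meas (μ : SignedMeasure (Eu d)) : Measurable (four μ) := by
  have := μ.toJordanDecomposition.posPart_finite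
  have := μ.toJordanDecomposition.negPart_finite
  have h : StronglyMeasurable (Function.uncurry fun (ξ x : Eu d) => ch x ξ) :=
    (ch_cont.comp continuous_swap).stronglyMeasurable
  have h1 := h.integral_prod_right (ν := μ.toJordanDecomposition.posPart)
  have h2 := h.integral_prod_right (ν := μ.toJordanDecomposition.negPart)
  exact (h1.sub h2).measurable

lemma mass_ne_top (μ : SignedMeasure (Eu d)) : mass μ ≠ ⊤ := by
  unfold mass
  exact measure_ne_top _ _

lemma four_le (μ : SignedMeasure (Eu d)) (ξ : Eu d) : ‖four μ ξ‖ ≤ (mass μ).toReal := by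
  have h := sint_enorm μ (fun x => ch x ξ) 1 (fun x => by
    rw [← ofReal_norm, ch_norm]; simp)
  rw [one_mul, ← four_eq] at h
  have := ENNReal.toReal_mono (mass_ne_top μ) h
  simpa using this

lemma heatConv_eq (μ : SignedMeasure (Eu d)) {s : ℝ} (hs : 0 < s) (x : Eu d) :
    ∫ ξ, ch x ξ * (conj (four μ ξ) * (gs s ξ : ℂ)) = heatConv μ s x := by
  have h1 : ∀ ξ, ch x ξ * (conj (four μ ξ) * (gs s ξ : ℂ)) =
      sint μ (fun y => ch (x - y) ξ * (gs s ξ : ℂ)) := by
    intro ξ
    rw [four_eq, sint_conj, sint_mul]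
    have : (fun y => ch (x - y) ξ) = fun y => conj (ch y ξ) * ch x ξ := by
      funext y
      rw [← ch_sub, mul_comm]
    rw [this, sint_mul]
    ring
  simp_rw [h1]
  rw [fubini μ (fun y ξ => ch (x - y) ξ * (gs s ξ : ℂ)) ?_ (gs s) (gs_int hs) ?_]
  · unfold heatConv
    congr 1
    funext y
    exact gauss hs (x - y)
  · have : Continuous (Function.uncurry fun (y ξ : Eu d) => ch (x - y) ξ * (gs s ξ : ℂ)) := by
      have h2 : Continuous fun z : Eu d × Eu d => ch (x - z.1) z.2 :=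
        ch_cont.comp ((continuous_const.sub continuous_fst).prodMk continuous_snd)
      have h3 : Continuous fun z : Eu d × Eu d => (gs s z.2 : ℂ) :=
        Complex.continuous_ofReal.comp ((gs_cont s).comp continuous_snd)
      exact h2.mul h3
    exact this.measurable
  · intro y ξ
    rw [norm_mul, ch_norm, one_mul, Complex.norm_real, Real.norm_of_nonneg (gs_pos s ξ).le]

lemma main_eq (μ : SignedMeasure (Eu d)) {s : ℝ} (hs : 0 < s) :
    ∫ ξ, four μ ξ * (conj (four μ ξ) * (gs s ξ : ℂ)) = sint μ (heatConv μ s) := by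
  have h1 : ∀ ξ, four μ ξ * (conj (four μ ξ) * (gs s ξ : ℂ)) =
      sint μ (fun x => ch x ξ * (conj (four μ ξ) * (gs s ξ : ℂ))) := by
    intro ξ
    rw [sint_mul, ← four_eq]
  simp_rw [h1]
  rw [fubini μ (fun x ξ => ch x ξ * (conj (four μ ξ) * (gs s ξ : ℂ))) ?_
    (fun ξ => (mass μ).toReal * gs s ξ) ((gs_int hs).const_mul _) ?_]
  · congr 1
    funext x
    exact heatConv_eq μ hs x
  · have h2 : Measurable fun z : Eu d × Eu d => ch z.1 z.2 := ch_cont.measurable
    have h3 : Measurable fun z : Eu d × Eu d => conj (four μ z.2) :=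
      Complex.continuous_conj.measurable.comp ((four_meas μ).comp measurable_snd)
    have h4 : Measurable fun z : Eu d × Eu d => (gs s z.2 : ℂ) :=
      (Complex.continuous_ofReal.comp ((gs_cont s).comp continuous_snd)).measurable
    exact h2.mul (h3.mul h4)
  · intro x ξ
    rw [norm_mul, ch_norm, one_mul, norm_mul, RCLike.norm_conj, Complex.norm_real,
      Real.norm_of_nonneg (gs_pos s ξ).le]
    exact mul_le_mul_of_nonneg_right (four_le μ ξ) (gs_pos s ξ).le

lemma heatConv_cont (μ : SignedMeasure (Eu d)) {s : ℝ} (hs : 0 < s) : Continuous (heatConv μ s) := by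
  have := μ.toJordanDecomposition.posPart_finite
  have := μ.toJordanDecomposition.negPart_finite
  have hc : Continuous (heat d s) := by unfold heat; fun_prop
  have key : ∀ ν : Measure (Eu d), IsFiniteMeasure ν →
      Continuous fun x : Eu d => ∫ y, (heat d s (x - y) : ℂ) ∂ν := by
    intro ν hν
    refine continuous_of_dominated (bound := fun _ => (4 * Real.pi * s) ^ (-(d : ℝ) / 2)) ?_ ?_ ?_ ?_
    · intro x
      exact (Complex.continuous_ofReal.comp (hc.comp (continuous_const.sub continuous_id))).aestronglyMeasurable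
    · intro x
      refine Eventually.of_forall fun y => ?_
      rw [Complex.norm_real]
      unfold heat
      rw [Real.norm_of_nonneg (by positivity)]
      have : Real.exp (-‖x - y‖ ^ 2 / (4 * s)) ≤ 1 := by
        rw [Real.exp_le_one_iff]
        exact div_nonpos_of_nonpos_of_nonneg (by simp) (by positivity)
      exact mul_le_of_le_one_right (by positivity) this
    · exact integrable_const _
    · refine Eventually.of_forall fun y => ?_
      exact Complex.continuous_ofReal.comp (hc.comp (continuous_id.sub continuous_const))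
  exact (key _ inferInstance).sub (key _ inferInstance)

lemma le_essSup_of_cont {f : Eu d → ℂ} (hf : Continuous f) (x : Eu d) : ‖f x‖ₑ ≤ eLpNorm f ⊤ volume := by
  rw [eLpNorm_exponent_top]
  by_contra h
  rw [not_le] at h
  have h1 : IsOpen {y : Eu d | eLpNormEssSup f volume < ‖f y‖ₑ} :=
    isOpen_lt continuous_const (continuous_enorm.comp hf)
  have h2 := h1.measure_pos volume ⟨x, h⟩
  have h3 := ae_le_eLpNormEssSup (f := f) (μ := (volume : Measure (Eu d)))
  rw [ae_iff] at h3
  simp only [not_le] at h3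
  exact h2.ne' h3

theorem squ : S_squ := by
  intro d μ hd
  -- for every s
  have key : ∀ s : ℝ, 0 < s → ∫⁻ ξ, ‖four μ ξ‖ₑ ^ 2 * ENNReal.ofReal (gs s ξ) ≤ mass μ * besov d μ := by
    intro s hs
    have h1 := main_eq μ hs
    have h2 : ∀ ξ, four μ ξ * (conj (four μ ξ) * (gs s ξ : ℂ)) = ((‖four μ ξ‖ ^ 2 * gs s ξ : ℝ) : ℂ) := by
      intro ξ
      rw [← mul_assoc, Complex.mul_conj, Complex.normSq_eq_norm_sq]
      push_cast
      ring
    simp_rw [h2] at h1
    have h1' : ((∫ ξ : Eu d, ‖four μ ξ‖ ^ 2 * gs s ξ : ℝ) : ℂ) = sint μ (heatConv μ s) := by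
      rw [← h1]
      exact (integral_ofReal).symm
    have h3 : Integrable fun ξ : Eu d => ‖four μ ξ‖ ^ 2 * gs s ξ := by
      refine ((gs_int hs).const_mul ((mass μ).toReal ^ 2)).mono' ?_ (Eventually.of_forall fun ξ => ?_)
      · exact (((four_meas μ).norm.pow_const 2).mul (gs_cont s).measurable).aestronglyMeasurable
      · rw [Real.norm_of_nonneg (mul_nonneg (sq_nonneg _) (gs_pos s ξ).le)]
        exact mul_le_mul_of_nonneg_right (pow_le_pow_left₀ (norm_nonneg _) (four_le μ ξ) 2) (gs_pos s ξ).le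
    have h4 : ∫⁻ ξ, ‖four μ ξ‖ₑ ^ 2 * ENNReal.ofReal (gs s ξ) = ‖sint μ (heatConv μ s)‖ₑ := by
      rw [← h1', ← ofReal_norm, Complex.norm_real, Real.norm_of_nonneg
        (integral_nonneg fun ξ => mul_nonneg (sq_nonneg _) (gs_pos s ξ).le),
        ofReal_integral_eq_lintegral_ofReal h3 (Eventually.of_forall fun ξ => mul_nonneg (sq_nonneg _) (gs_pos s ξ).le)]
      refine lintegral_congr fun ξ => ?_
      rw [ENNReal.ofReal_mul (sq_nonneg _), ← ofReal_norm, ENNReal.ofReal_pow (norm_nonneg _)]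
    rw [h4]
    refine (sint_enorm μ _ _ (le_essSup_of_cont (heatConv_cont μ hs))).trans ?_
    rw [mul_comm]
    refine mul_le_mul_right (α := ℝ≥0∞) ?_ _
    have h5 : ENNReal.ofReal (s ^ (((d : ℝ) - d) / 2)) * eLpNorm (heatConv μ s) ⊤ volume ≤ besov d μ :=
      le_iSup₂_of_le s hs le_rfl
    simpa using h5
  -- limit
  have hm : ∀ n : ℕ, Measurable fun ξ : Eu d => ‖four μ ξ‖ₑ ^ 2 * ENNReal.ofReal (gs (1 / ((n : ℝ) + 1)) ξ) :=
    fun n => ((four_meas μ).enorm.pow_const 2).mul (gs_cont _).measurable.ennreal_ofReal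
  have h6 := lintegral_liminf_le (μ := (volume : Measure (Eu d))) (u := atTop) hm
  have h7 : ∀ ξ : Eu d, liminf (fun n : ℕ => ‖four μ ξ‖ₑ ^ 2 * ENNReal.ofReal (gs (1 / ((n : ℝ) + 1)) ξ)) atTop =
      ‖four μ ξ‖ₑ ^ 2 := by
    intro ξ
    refine Tendsto.liminf_eq ?_
    have h8 : Tendsto (fun n : ℕ => gs (1 / ((n : ℝ) + 1)) ξ) atTop (𝓝 1) := by
      unfold gs
      have h9 : Tendsto (fun n : ℕ => -(4 * Real.pi ^ 2 * (1 / ((n : ℝ) + 1))) * ‖ξ‖ ^ 2) atTop
          (𝓝 (-(4 * Real.pi ^ 2 * 0) * ‖ξ‖ ^ 2)) :=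
        ((tendsto_one_div_add_atTop_nhds_zero_nat.const_mul (4 * Real.pi ^ 2)).neg).mul_const _
      have h10 := (Real.continuous_exp.tendsto _).comp h9
      simpa [Function.comp_def] using h10
    have h11 : Tendsto (fun n : ℕ => ENNReal.ofReal (gs (1 / ((n : ℝ) + 1)) ξ)) atTop (𝓝 1) := by
      have := (ENNReal.continuous_ofReal.tendsto _).comp h8
      simpa [Function.comp_def] using this
    have h12 := ENNReal.Tendsto.const_mul (a := ‖four μ ξ‖ₑ ^ 2) h11 (Or.inl one_ne_zero)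
    simpa using h12
  simp_rw [h7] at h6
  refine h6.trans ?_
  refine liminf_le_of_frequently_le' (Eventually.frequently (Eventually.of_forall fun n => ?_))
  exact key _ (by positivity)

end Pool.Agent.Q65.LZ
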